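import Pool.Agent.X28.EO.Sv
import Pool.Agent.H361R2.PP.Asm2

/-! A positive proportion of all patterns is realised the expected number of times. -/

set_option autoImplicit false

open Finset

namespace Pool.Agent.X28.EO

open Pool.Agent.H361R2.PP (Ex poissonP pi_add)

/-- `H` misses a residue class modulo every prime -/
def Admissible (H : Finset ℕ) : Prop := ∀ p : ℕ, p.Prime → ∃ r : ℕ, r < p ∧ ∀ h ∈ H, h % p ≠ r

/-- `n` realises `H` as consecutive primes -/
def Realises (H : Finset ℕ) (n : ℕ) : Prop :=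
  (∀ h ∈ H, (n + h).Prime) ∧ ∀ y : ℕ, (n + y).Prime → (∃ h ∈ H, y ≤ h) → y ∈ H

/-- every smaller prime is smaller than `n - B` -/
def Iso (B : ℝ) (n : ℕ) : Prop := ∀ q : ℕ, q.Prime → q < n → B < (n : ℝ) - q

theorem extract {lam Λ B : ℝ} {m n₀ D : ℕ} (hm : 1 ≤ m) (hlam : 0 < lam) (hΛ : 0 ≤ Λ)
    (hn : 1 ≤ n₀) (hD : ⌊(n₀ : ℝ) + lam * Real.log n₀⌋₊ ≤ n₀ + D) (hE : Ex lam Λ m n₀)
    (hB : B ≤ Λ * Real.log n₀) :
    ∃ (H : Finset ℕ) (n : ℕ), H ∈ pat m D ∧ Realises H n ∧ Iso B n ∧ n₀ < n ∧ n ≤ n₀ + D := by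
  classical
  obtain ⟨hE1, hE2⟩ := hE
  have hlog : 0 ≤ Real.log n₀ := Real.log_nonneg (by exact_mod_cast hn)
  obtain ⟨b, hb⟩ : ∃ b, b = ⌊(n₀ : ℝ) + lam * Real.log n₀⌋₊ := ⟨_, rfl⟩
  obtain ⟨a, ha⟩ : ∃ a, a = ⌊(n₀ : ℝ) - Λ * Real.log n₀⌋₊ := ⟨_, rfl⟩
  rw [← hb] at hE1 hD
  rw [← ha] at hE2
  have hb1 : n₀ ≤ b := by
    rw [hb]
    refine Nat.le_floor ?_
    have : 0 ≤ lam * Real.log n₀ := by positivity
    linarith
  have ha1 : a ≤ n₀ := by
    have h1 : a ≤ ⌊(n₀ : ℝ)⌋₊ := by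
      rw [ha]
      refine Nat.floor_le_floor ?_
      have : 0 ≤ Λ * Real.log n₀ := by positivity
      linarith
    rwa [Nat.floor_natCast] at h1
  obtain ⟨P, hP⟩ : ∃ P, P = (Ioc n₀ b).filter Nat.Prime := ⟨_, rfl⟩
  have hPc : P.card = m := by
    have := pi_add hb1
    rw [hP]
    omega
  have hPne : P.Nonempty := by
    rw [← Finset.card_pos]
    omega
  have hPmem : ∀ q, q ∈ P ↔ (n₀ < q ∧ q ≤ b) ∧ q.Prime := by
    intro q
    rw [hP, Finset.mem_filter, Finset.mem_Ioc]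
  obtain ⟨n, hnd⟩ : ∃ n, n = P.min' hPne := ⟨_, rfl⟩
  have hnP : n ∈ P := by
    rw [hnd]
    exact Finset.min'_mem _ _
  have hnle : ∀ q ∈ P, n ≤ q := by
    intro q hq
    rw [hnd]
    exact Finset.min'_le _ _ hq
  have hn1 := (hPmem n).1 hnP
  refine ⟨P.image (fun q => q - n), n, ?_, ⟨?_, ?_⟩, ?_, hn1.1.1, hn1.1.2.trans hD⟩
  · rw [pat, Finset.mem_filter, Finset.mem_powersetCard]
    refine ⟨⟨?_, ?_⟩, ?_⟩
    · intro y hy
      obtain ⟨q, hq, rfl⟩ := Finset.mem_image.1 hy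
      have h1 := (hPmem q).1 hq
      rw [Finset.mem_range]
      omega
    · rw [Finset.card_image_of_injOn, hPc]
      intro q hq q' hq' he
      have h1 := hnle q hq
      have h2 := hnle q' hq'
      have he' : q - n = q' - n := he
      omega
    · exact Finset.mem_image.2 ⟨n, hnP, Nat.sub_self n⟩
  · intro h hh
    obtain ⟨q, hq, rfl⟩ := Finset.mem_image.1 hh
    have h1 := hnle q hq
    have h2 : n + (q - n) = q := by omega
    rw [h2]
    exact ((hPmem q).1 hq).2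
  · rintro y hy ⟨h, hh, hyh⟩
    obtain ⟨q, hq, rfl⟩ := Finset.mem_image.1 hh
    have h1 := hnle q hq
    have h2 := (hPmem q).1 hq
    refine Finset.mem_image.2 ⟨n + y, (hPmem _).2 ⟨⟨by omega, by omega⟩, hy⟩, by omega⟩
  · intro q hq hqn
    have h1 : q ≤ n₀ := by
      by_contra hcon
      push Not at hcon
      have h2 : q ∈ P := (hPmem q).2 ⟨⟨hcon, by omega⟩, hq⟩
      have := hnle q h2
      omega
    have h2 : q ≤ a := by
      by_contra hcon
      push Not at hcon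
      have h3 := pi_add ha1
      have h4 : 0 < ((Ioc a n₀).filter Nat.Prime).card := by
        rw [Finset.card_pos]
        exact ⟨q, by rw [Finset.mem_filter, Finset.mem_Ioc]; exact ⟨⟨hcon, h1⟩, hq⟩⟩
      omega
    have h3 : (q : ℝ) ≤ (n₀ : ℝ) - Λ * Real.log n₀ := by
      rw [ha] at h2
      exact (Nat.le_floor_iff' hq.ne_zero).1 h2
    have h4 : (n₀ : ℝ) + 1 ≤ n := by exact_mod_cast hn1.1.1
    linarith

/-- a set which is realised more than `m` times is admissible -/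
theorem adm_of {H : Finset ℕ} {m x : ℕ} (hH : H.card = m)
    (h : m < ((Icc 1 x).filter (fun n => ∀ h ∈ H, (n + h).Prime)).card) : Admissible H := by
  classical
  by_contra hcon
  unfold Admissible at hcon
  push Not at hcon
  obtain ⟨p, hp, hcov⟩ := hcon
  have hpm : p ≤ m := by
    rw [← hH, ← Finset.card_range p]
    have h1 : range p ⊆ H.image (fun a => a % p) := by
      intro r hr
      obtain ⟨a, ha, har⟩ := hcov r (Finset.mem_range.1 hr)
      exact Finset.mem_image.2 ⟨a, ha, har⟩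
    exact (Finset.card_le_card h1).trans Finset.card_image_le
  have h2 : ((Icc 1 x).filter (fun n => ∀ h ∈ H, (n + h).Prime)) ⊆ Icc 1 m := by
    intro n hn
    rw [Finset.mem_filter, Finset.mem_Icc] at hn
    rw [Finset.mem_Icc]
    refine ⟨hn.1.1, ?_⟩
    obtain ⟨a, ha, har⟩ := hcov ((p - n % p) % p) (Nat.mod_lt _ hp.pos)
    have h3 := hn.2 a ha
    have h4 : p ∣ n + a := by
      have hlt := Nat.mod_lt n hp.pos
      have h5 : (n + a) % p = 0 := by
        rw [Nat.add_mod, har]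
        rcases Nat.eq_zero_or_pos (n % p) with h0 | h0
        · rw [h0, Nat.sub_zero, Nat.mod_self]
          simp
        · have h6 : (p - n % p) % p = p - n % p := Nat.mod_eq_of_lt (by omega)
          rw [h6]
          have h7 : n % p + (p - n % p) = p := by omega
          rw [h7, Nat.mod_self]
      exact Nat.dvd_of_mod_eq_zero h5
    have h5 : p = n + a := ((Nat.prime_dvd_prime_iff_eq hp h3).1 h4)
    omega
  have h3 := Finset.card_le_card h2
  rw [Nat.card_Icc] at h3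
  omega

open Classical in
/-- number of realisations -/
noncomputable def NN (H : Finset ℕ) (B : ℝ) (x : ℕ) : ℕ :=
  ((Icc 1 x).filter (fun n => Realises H n ∧ Iso B n)).card

theorem NN_le (H : Finset ℕ) (B : ℝ) (x : ℕ) :
    NN H B x ≤ ((Icc 1 x).filter (fun n => ∀ h ∈ H, (n + h).Prime)).card := by
  classical
  unfold NN
  refine Finset.card_le_card ?_
  intro n hn
  rw [Finset.mem_filter] at hn ⊢
  exact ⟨hn.1, hn.2.1.1⟩

theorem count {lam Λ B : ℝ} {m N x D : ℕ} (hm : 1 ≤ m) (hlam : 0 < lam) (hΛ : 0 ≤ Λ)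
    (S : Finset ℕ) (hS : ∀ n ∈ S, 1 ≤ n ∧ n ≤ N ∧ Ex lam Λ m n ∧
      ⌊(n : ℝ) + lam * Real.log n⌋₊ ≤ n + D ∧ B ≤ Λ * Real.log n) (hx : N + D ≤ x) :
    S.card ≤ (∑ H ∈ pat m D, NN H B x) * (D + 1) := by
  classical
  have hex : ∀ n₀ : ℕ, ∃ q : Finset ℕ × ℕ, n₀ ∈ S → q.1 ∈ pat m D ∧ Realises q.1 q.2 ∧ Iso B q.2 ∧
      n₀ < q.2 ∧ q.2 ≤ n₀ + D := by
    intro n₀
    by_cases h : n₀ ∈ S
    · obtain ⟨h1, h2, h3, h4, h5⟩ := hS n₀ h
      obtain ⟨H, n, h6⟩ := extract hm hlam hΛ h1 h4 h3 h5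
      exact ⟨(H, n), fun _ => h6⟩
    · exact ⟨(∅, 0), fun h' => absurd h' h⟩
  choose q hq using hex
  rw [Finset.sum_mul]
  have h1 : ∑ H ∈ pat m D, NN H B x * (D + 1) =
      ((pat m D).sigma (fun H => ((Icc 1 x).filter (fun n => Realises H n ∧ Iso B n)) ×ˢ
        range (D + 1))).card := by
    rw [Finset.card_sigma]
    refine Finset.sum_congr rfl (fun H _ => ?_)
    rw [Finset.card_product, Finset.card_range]
    unfold NN
    congr 2
  rw [h1]
  refine Finset.card_le_card_of_injOn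
    (fun n₀ => (⟨(q n₀).1, ((q n₀).2, (q n₀).2 - n₀)⟩ : Sigma fun _ : Finset ℕ => ℕ × ℕ)) ?_ ?_
  · intro n₀ hn₀
    rw [Finset.mem_coe] at hn₀
    obtain ⟨h2, h3, h4, h5, h6⟩ := hq n₀ hn₀
    obtain ⟨g1, g2, _⟩ := hS n₀ hn₀
    rw [Finset.mem_coe, Finset.mem_sigma, Finset.mem_product, Finset.mem_filter, Finset.mem_Icc,
      Finset.mem_range]
    refine ⟨h2, ⟨⟨?_, ?_⟩, h3, h4⟩, ?_⟩
    · show 1 ≤ (q n₀).2
      omega
    · show (q n₀).2 ≤ x
      omega
    · show (q n₀).2 - n₀ < D + 1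
      omega
  · intro a ha b hb hab
    obtain ⟨_, _, _, h5, _⟩ := hq a ha
    obtain ⟨_, _, _, h5', _⟩ := hq b hb
    have e1 := congrArg (fun s : (Sigma fun _ : Finset ℕ => ℕ × ℕ) => s.2.1) hab
    have e2 := congrArg (fun s : (Sigma fun _ : Finset ℕ => ℕ × ℕ) => s.2.2) hab
    have e1' : (q a).2 = (q b).2 := e1
    have e2' : (q a).2 - a = (q b).2 - b := e2
    omega

/-- the final inequality -/
theorem final_ineq {ι : Type*} (P : Finset ι) (N N' G : ι → ℝ) {c₅ K C₂ T M Q A : ℝ}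
    (hN : ∀ H ∈ P, N H ≤ N' H) (hG : ∀ H ∈ P, 0 ≤ G H) (hK : 0 < K) (hC₂ : 0 < C₂) (hT : 0 < T)
    (hs : ∀ H ∈ P, N' H ≤ C₂ * T * G H) (hsum : ∑ H ∈ P, G H ^ 2 ≤ M) (hcard : (P.card : ℝ) ≤ Q)
    (htot : A ≤ ∑ H ∈ P, N H) (hc₅ : 0 < c₅)
    (h1 : Q * (c₅ * T) ≤ A / 4) (h2 : C₂ * T / K * M ≤ A / 4) :
    ∃ F : Finset ι, F ⊆ P ∧ (∀ H ∈ F, c₅ * T ≤ N H ∧ N' H ≤ C₂ * K * T) ∧
      A / 2 ≤ F.card * (C₂ * K * T) := by
  classical
  refine ⟨P.filter (fun H => c₅ * T ≤ N H ∧ G H ≤ K), Finset.filter_subset _ _, ?_, ?_⟩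
  · intro H hH
    rw [Finset.mem_filter] at hH
    refine ⟨hH.2.1, (hs H hH.1).trans ?_⟩
    have := mul_le_mul_of_nonneg_left hH.2.2 (by positivity : (0 : ℝ) ≤ C₂ * T)
    linarith
  · have h3 : ∀ H ∈ P, N H ≤ c₅ * T + C₂ * T / K * G H ^ 2 +
        (if c₅ * T ≤ N H ∧ G H ≤ K then C₂ * K * T else 0) := by
      intro H hH
      have g0 := hG H hH
      have g1 := hs H hH
      have g2 := hN H hH
      have p1 : 0 ≤ C₂ * T / K * G H ^ 2 := by positivity
      have p2 : 0 < c₅ * T := by positivity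
      split_ifs with hc
      · have := mul_le_mul_of_nonneg_left hc.2 (by positivity : (0 : ℝ) ≤ C₂ * T)
        linarith
      · rw [not_and_or] at hc
        rcases hc with hc | hc
        · push Not at hc
          linarith
        · push Not at hc
          have h4 : C₂ * T * G H ≤ C₂ * T / K * G H ^ 2 := by
            have h5 : C₂ * T / K * G H ^ 2 = (C₂ * T * G H) * (G H / K) := by
              field_simp
            rw [h5]
            refine le_mul_of_one_le_right (by positivity) ?_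
            rw [one_le_div hK]
            exact hc.le
          linarith
    have h4 := Finset.sum_le_sum h3
    rw [Finset.sum_add_distrib, Finset.sum_add_distrib, Finset.sum_const, nsmul_eq_mul,
      ← Finset.mul_sum, ← Finset.sum_filter, Finset.sum_const, nsmul_eq_mul] at h4
    have h5 : (P.card : ℝ) * (c₅ * T) ≤ Q * (c₅ * T) :=
      mul_le_mul_of_nonneg_right hcard (by positivity)
    have h6 : C₂ * T / K * ∑ H ∈ P, G H ^ 2 ≤ C₂ * T / K * M :=
      mul_le_mul_of_nonneg_left hsum (by positivity)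
    linarith

theorem main (m : ℕ) (hm : 1 ≤ m) (lam Λ : ℝ) (hlam : 0 < lam) (hΛ : 0 ≤ Λ) :
    ∃ c C : ℝ, 0 < c ∧ ∃ x₀ : ℕ, ∀ x : ℕ, x₀ ≤ x → ∃ F : Finset (Finset ℕ),
      c * (Real.log x) ^ (m - 1) ≤ F.card ∧ ∀ H ∈ F, H.card = m ∧ 0 ∈ H ∧
        (∀ h ∈ H, (h : ℝ) ≤ lam * Real.log x) ∧ Admissible H ∧
        c * (x / (Real.log x) ^ m) ≤ NN H (Λ * Real.log x) x ∧
        (((Icc 1 x).filter (fun n => ∀ h ∈ H, (n + h).Prime)).card : ℝ) ≤
          C * (x / (Real.log x) ^ m) := by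
  classical
  obtain ⟨c₁, hc₁, N₁, h₁⟩ := poissonP lam (2 * Λ) m hlam (by positivity)
  obtain ⟨C₂, N₂, hC₂, h₂⟩ := sieveH m
  obtain ⟨C₃, hC₃, h₃⟩ := patSum m hm
  obtain ⟨A, hA⟩ : ∃ A : ℝ, A = (lam + 1) ^ (m - 1) := ⟨_, rfl⟩
  have hA0 : 0 < A := by rw [hA]; positivity
  obtain ⟨c₄, hc₄⟩ : ∃ c₄ : ℝ, c₄ = c₁ / (4 * (lam + 1)) := ⟨_, rfl⟩
  have hc₄0 : 0 < c₄ := by rw [hc₄]; positivity
  obtain ⟨c₅, hc₅⟩ : ∃ c₅ : ℝ, c₅ = c₄ / (4 * A) := ⟨_, rfl⟩
  have hc₅0 : 0 < c₅ := by rw [hc₅]; positivity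
  obtain ⟨K, hK⟩ : ∃ K : ℝ, K = 4 * C₂ * C₃ * A / c₄ := ⟨_, rfl⟩
  have hK0 : 0 < K := by rw [hK]; positivity
  have hlog := Real.tendsto_log_atTop.comp (tendsto_natCast_atTop_atTop (R := ℝ))
  have e1 := hlog.eventually_ge_atTop 1
  have e2 := hlog.eventually_ge_atTop (1 / lam)
  have e3 : ∀ᶠ x : ℕ in Filter.atTop, lam * Real.log x ≤ x / 4 := by
    have h1 : (fun x : ℝ => Real.log x) =o[Filter.atTop] (fun x : ℝ => x) :=
      Real.isLittleO_log_id_atTop
    have h2 := h1.bound (show (0 : ℝ) < 1 / (4 * lam) by positivity)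
    have h3 := tendsto_natCast_atTop_atTop (R := ℝ) |>.eventually h2
    filter_upwards [h3, Filter.eventually_ge_atTop 1] with X hX hX1
    have hX1' : (1 : ℝ) ≤ X := by exact_mod_cast hX1
    rw [Real.norm_of_nonneg (Real.log_nonneg hX1'), Real.norm_of_nonneg (by linarith)] at hX
    calc lam * Real.log X ≤ lam * (1 / (4 * lam) * X) := mul_le_mul_of_nonneg_left hX hlam.le
      _ = X / 4 := by field_simp
  have e4 : ∀ᶠ x : ℕ in Filter.atTop, ((m : ℝ) + 1) * (Real.log x) ^ m ≤ c₅ * x := by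
    have h1 : (fun x : ℝ => Real.log x ^ m) =o[Filter.atTop] (fun x : ℝ => x) :=
      Real.isLittleO_pow_log_id_atTop
    have h2 := h1.bound (show (0 : ℝ) < c₅ / (m + 1) by positivity)
    have h3 := tendsto_natCast_atTop_atTop (R := ℝ) |>.eventually h2
    filter_upwards [h3, Filter.eventually_ge_atTop 1] with X hX hX1
    have hX1' : (1 : ℝ) ≤ X := by exact_mod_cast hX1
    rw [Real.norm_of_nonneg (pow_nonneg (Real.log_nonneg hX1') _),
      Real.norm_of_nonneg (by linarith)] at hX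
    calc ((m : ℝ) + 1) * (Real.log X) ^ m ≤ ((m : ℝ) + 1) * (c₅ / (m + 1) * X) :=
          mul_le_mul_of_nonneg_left hX (by positivity)
      _ = c₅ * X := by field_simp
  have e5 : ∀ᶠ x : ℕ in Filter.atTop, (8 / c₁) ^ 2 ≤ (x : ℝ) :=
    (tendsto_natCast_atTop_atTop (R := ℝ)).eventually_ge_atTop _
  obtain ⟨X₀, hX₀⟩ := Filter.eventually_atTop.1 (((e1.and e2).and (e3.and e4)).and e5)
  refine ⟨min c₅ (c₄ / (2 * (C₂ * K))), C₂ * K, lt_min hc₅0 (by positivity),
    X₀ + 2 * N₁ + N₂ + 8, fun x hx => ?_⟩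
  obtain ⟨⟨⟨f1, f2⟩, f3, f4⟩, f5⟩ := hX₀ x (by omega)
  simp only [Function.comp_apply] at f1 f2
  obtain ⟨L, hL⟩ : ∃ L, L = Real.log x := ⟨_, rfl⟩
  rw [← hL] at f1 f2 f3 f4 ⊢
  have hxpos : (0 : ℝ) < x := by exact_mod_cast (by omega : 0 < x)
  have hLpos : 0 < L := by linarith
  obtain ⟨D, hD⟩ : ∃ D, D = ⌊lam * L⌋₊ := ⟨_, rfl⟩
  have hlL : 1 ≤ lam * L := by
    rw [div_le_iff₀ hlam] at f2
    linarith
  have hD1 : 1 ≤ D := by
    rw [hD]
    exact Nat.le_floor (by exact_mod_cast hlL)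
  have hD2 : (D : ℝ) ≤ lam * L := by
    rw [hD]
    exact Nat.floor_le (by positivity)
  have hD3 : (D : ℝ) + 1 ≤ (lam + 1) * L := by linarith
  obtain ⟨N, hN⟩ : ∃ N, N = x / 2 := ⟨_, rfl⟩
  have hNx : N + D ≤ x := by
    have h1 : (N : ℝ) ≤ x / 2 := by
      rw [hN]
      exact_mod_cast Nat.cast_div_le
    have h2 : (N : ℝ) + D ≤ x := by linarith
    exact_mod_cast h2
  -- the set `S`
  obtain ⟨S, hS⟩ : ∃ S, S = ((Icc 1 N).filter (fun n => Ex lam (2 * Λ) m n)).filter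
      (fun n => x ≤ n ^ 2) := ⟨_, rfl⟩
  have hScard : c₁ / 4 * x ≤ S.card := by
    have h1 := h₁ N (by omega)
    have h2 : ((Icc 1 N).filter (fun n => Ex lam (2 * Λ) m n)).card ≤
        S.card + Nat.sqrt x := by
      have h3 : (((Icc 1 N).filter (fun n => Ex lam (2 * Λ) m n)).filter
          (fun n => ¬ x ≤ n ^ 2)).card ≤ Nat.sqrt x := by
        have h4 : (((Icc 1 N).filter (fun n => Ex lam (2 * Λ) m n)).filter
          (fun n => ¬ x ≤ n ^ 2)) ⊆ Icc 1 (Nat.sqrt x) := by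
          intro n hn
          rw [Finset.mem_filter, Finset.mem_filter, Finset.mem_Icc] at hn
          rw [Finset.mem_Icc]
          refine ⟨hn.1.1.1, ?_⟩
          rw [Nat.le_sqrt']
          omega
        refine (Finset.card_le_card h4).trans ?_
        rw [Nat.card_Icc]
        omega
      have h4 := Finset.card_filter_add_card_filter_not
        (s := (Icc 1 N).filter (fun n => Ex lam (2 * Λ) m n)) (fun n => x ≤ n ^ 2)
      rw [← hS] at h4
      omega
    have h3 : (((Icc 1 N).filter (fun n => Ex lam (2 * Λ) m n)).card : ℝ) ≤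
        S.card + (Nat.sqrt x : ℕ) := by exact_mod_cast h2
    have h4 : ((Nat.sqrt x : ℕ) : ℝ) ≤ c₁ / 8 * x := by
      have h5 : ((Nat.sqrt x : ℕ) : ℝ) ≤ Real.sqrt x := Real.nat_sqrt_le_real_sqrt
      have h6 : 8 / c₁ ≤ Real.sqrt x := Real.le_sqrt_of_sq_le f5
      have h7 : Real.sqrt x * Real.sqrt x = x := Real.mul_self_sqrt hxpos.le
      have h8 : Real.sqrt x ≤ c₁ / 8 * (Real.sqrt x * Real.sqrt x) := by
        have h9 : 1 ≤ c₁ / 8 * Real.sqrt x := by
          calc (1 : ℝ) = c₁ / 8 * (8 / c₁) := by field_simp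
            _ ≤ c₁ / 8 * Real.sqrt x := mul_le_mul_of_nonneg_left h6 (by positivity)
        have h10 : 0 ≤ Real.sqrt x := Real.sqrt_nonneg _
        nlinarith
      rw [h7] at h8
      linarith
    have h5 : (x : ℝ) / 2 - 1 / 2 ≤ N := by
      have h6 : x ≤ 2 * N + 1 := by omega
      have h7 : (x : ℝ) ≤ 2 * N + 1 := by exact_mod_cast h6
      linarith
    have h6 : (8 : ℝ) ≤ x := by exact_mod_cast (by omega : 8 ≤ x)
    have h7 : c₁ * ((x : ℝ) / 2 - 1 / 2) ≤ c₁ * N := mul_le_mul_of_nonneg_left h5 hc₁.le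
    have h8 : c₁ * 8 ≤ c₁ * x := mul_le_mul_of_nonneg_left h6 hc₁.le
    linarith
  have hcnt := count (lam := lam) (Λ := 2 * Λ) (B := Λ * L) (m := m) (N := N) (x := x) (D := D)
    hm hlam (by positivity) S (by
      intro n hn
      rw [hS, Finset.mem_filter, Finset.mem_filter, Finset.mem_Icc] at hn
      obtain ⟨⟨⟨g1, g2⟩, g3⟩, g4⟩ := hn
      have hn0 : (0 : ℝ) < n := by exact_mod_cast g1
      have hnx : (n : ℝ) ≤ x := by
        have : n ≤ x := by omega
        exact_mod_cast this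
      have hl1 : Real.log n ≤ L := by
        rw [hL]
        exact Real.log_le_log hn0 hnx
      have hl2 : L ≤ 2 * Real.log n := by
        have h5 : (x : ℝ) ≤ (n : ℝ) ^ 2 := by exact_mod_cast g4
        have h6 := Real.log_le_log hxpos h5
        rw [Real.log_pow] at h6
        rw [hL]
        exact_mod_cast h6
      refine ⟨g1, g2, g3, ?_, ?_⟩
      · have h5 : ⌊(n : ℝ) + lam * Real.log n⌋₊ ≤ ⌊(n : ℝ) + lam * L⌋₊ := by
          refine Nat.floor_le_floor ?_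
          have := mul_le_mul_of_nonneg_left hl1 hlam.le
          linarith
        have h6 : ⌊(n : ℝ) + lam * L⌋₊ = n + D := by
          rw [add_comm, Nat.floor_add_natCast (by positivity), hD, add_comm]
        omega
      · have := mul_le_mul_of_nonneg_left hl2 hΛ
        linarith) hNx
  have hcnt' : (S.card : ℝ) ≤ (∑ H ∈ pat m D, (NN H (Λ * L) x : ℝ)) * ((D : ℝ) + 1) := by
    exact_mod_cast hcnt
  have htot : c₄ * (x / L) ≤ ∑ H ∈ pat m D, (NN H (Λ * L) x : ℝ) := by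
    have h1 : c₁ / 4 * x ≤ (∑ H ∈ pat m D, (NN H (Λ * L) x : ℝ)) * ((lam + 1) * L) := by
      refine (hScard.trans hcnt').trans ?_
      exact mul_le_mul_of_nonneg_left hD3 (Finset.sum_nonneg (fun _ _ => Nat.cast_nonneg _))
    have h2 : c₄ * (x / L) = c₁ / 4 * x / ((lam + 1) * L) := by
      rw [hc₄]
      field_simp
    rw [h2, div_le_iff₀ (by positivity)]
    exact h1
  obtain ⟨T, hT⟩ : ∃ T : ℝ, T = x / L ^ m := ⟨_, rfl⟩
  have hT0 : 0 < T := by rw [hT]; positivity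
  have hTL : L ^ (m - 1) * T = x / L := by
    obtain ⟨k, rfl⟩ : ∃ k, m = k + 1 := ⟨m - 1, by omega⟩
    rw [hT, Nat.add_sub_cancel, pow_succ]
    field_simp
  have hxL : 0 < (x : ℝ) / L := by positivity
  obtain ⟨F, hF1, hF2, hF3⟩ := final_ineq (pat m D) (fun H => (NN H (Λ * L) x : ℝ))
    (fun H => (((Icc 1 x).filter (fun n => ∀ h ∈ H, (n + h).Prime)).card : ℝ)) (GH m)
    (c₅ := c₅) (K := K) (C₂ := C₂) (T := T) (M := C₃ * (A * L ^ (m - 1))) (Q := A * L ^ (m - 1))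
    (A := c₄ * (x / L))
    (fun H _ => by exact_mod_cast NN_le H (Λ * L) x) (fun H _ => GH_nonneg m H) hK0 hC₂ hT0
    (fun H hH => by
      rw [pat, Finset.mem_filter, Finset.mem_powersetCard] at hH
      have := h₂ x (by omega) H hH.1.2
      rw [← hL, ← hT] at this
      exact this)
    (by
      refine (h₃ D hD1).trans (mul_le_mul_of_nonneg_left ?_ hC₃.le)
      rw [hA, ← mul_pow]
      exact pow_le_pow_left₀ (Nat.cast_nonneg _) (by linarith) _)
    (by
      refine (pat_card_le m D hm).trans ?_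
      rw [hA, ← mul_pow]
      exact pow_le_pow_left₀ (by positivity) hD3 _)
    htot hc₅0
    (by
      have h1 : A * L ^ (m - 1) * (c₅ * T) = A * c₅ * (L ^ (m - 1) * T) := by ring
      rw [h1, hTL, hc₅]
      refine le_of_eq ?_
      field_simp)
    (by
      have h1 : C₂ * T / K * (C₃ * (A * L ^ (m - 1))) = C₂ * C₃ * A / K * (L ^ (m - 1) * T) := by
        ring
      rw [h1, hTL, hK]
      refine le_of_eq ?_
      field_simp)
  refine ⟨F, ?_, fun H hH => ?_⟩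
  · have h1 : c₄ * (x / L) / 2 = c₄ / (2 * (C₂ * K)) * L ^ (m - 1) * (C₂ * K * T) := by
      rw [← hTL]
      field_simp
    rw [h1] at hF3
    have h2 : c₄ / (2 * (C₂ * K)) * L ^ (m - 1) ≤ F.card :=
      le_of_mul_le_mul_right hF3 (by positivity)
    refine le_trans (mul_le_mul_of_nonneg_right (min_le_right _ _) (by positivity)) h2
  · have hP := hF1 hH
    rw [pat, Finset.mem_filter, Finset.mem_powersetCard] at hP
    obtain ⟨⟨hP1, hP2⟩, hP3⟩ := hP
    obtain ⟨g1, g2⟩ := hF2 H hH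
    refine ⟨hP2, hP3, ?_, ?_, ?_, ?_⟩
    · intro h hh
      have h1 := Finset.mem_range.1 (hP1 hh)
      have h2 : h ≤ D := by omega
      exact le_trans (by exact_mod_cast h2) hD2
    · refine adm_of (x := x) hP2 ?_
      have h1 : (m : ℝ) + 1 ≤ c₅ * T := by
        rw [hT, ← mul_div_assoc, le_div_iff₀ (by positivity)]
        exact f4
      have h2 : (m : ℝ) + 1 ≤ (NN H (Λ * L) x : ℝ) := h1.trans g1
      have h3 : m + 1 ≤ NN H (Λ * L) x := by exact_mod_cast h2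
      exact lt_of_lt_of_le (by omega : m < NN H (Λ * L) x) (NN_le H (Λ * L) x)
    · rw [← hT]
      exact le_trans (mul_le_mul_of_nonneg_right (min_le_left _ _) hT0.le) g1
    · rw [← hT]
      exact g2

end Pool.Agent.X28.EO
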