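import Pool.Agent.Y904.U.Hav

/-! Second moment of the local factors over all patterns. -/

set_option autoImplicit false

open Finset

namespace Pool.Agent.X28.EO

open Pool.Agent.Y958.U (hh)
open Pool.Agent.Y904.U (moment hh_nonneg hh_pow)

theorem fib_le {k : ℕ} (D : ℕ) (i : Fin k) (w : (Fin k → ℕ) → ℤ)
    (hw : ∀ f f' : Fin k → ℕ, (∀ l, l ≠ i → f l = f' l) → w f = w f') (s : ℤ) :
    ((Fintype.piFinset (fun _ : Fin k => Icc 1 D)).filter
      (fun f => (f i : ℤ) - w f = s)).card ≤ D ^ (k - 1) := by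
  classical
  have hcard : (Fintype.piFinset (fun l : Fin k => if l = i then ({0} : Finset ℕ) else
      Icc 1 D)).card = D ^ (k - 1) := by
    rw [Fintype.card_piFinset]
    have : ∀ l : Fin k, (if l = i then ({0} : Finset ℕ) else Icc 1 D).card =
        if l = i then 1 else D := by
      intro l
      split_ifs
      · simp
      · rw [Nat.card_Icc]; omega
    rw [Finset.prod_congr rfl fun l _ => this l, Finset.prod_ite, Finset.prod_const_one, one_mul,
      Finset.prod_const]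
    congr 1
    rw [Finset.filter_not, Finset.filter_eq' univ i, if_pos (Finset.mem_univ i),
      ← Finset.compl_eq_univ_sdiff, Finset.card_compl, Fintype.card_fin, Finset.card_singleton]
  rw [← hcard]
  apply Finset.card_le_card_of_injOn (fun r => Function.update r i 0)
  · intro r hr
    rw [Finset.mem_coe, Finset.mem_filter] at hr
    rw [Finset.mem_coe, Fintype.mem_piFinset]
    intro l
    have h1 := (Fintype.mem_piFinset.1 hr.1) l
    by_cases hi : l = i
    · subst hi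
      simp
    · simp only [Function.update_of_ne hi, if_neg hi]
      exact h1
  · intro r hr r' hr' he
    rw [Finset.mem_coe, Finset.mem_filter] at hr hr'
    have he' : ∀ l, l ≠ i → r l = r' l := by
      intro l hi
      have := congrFun he l
      simpa only [Function.update_of_ne hi] using this
    have e1 := hw r r' he'
    funext l
    by_cases hi : l = i
    · rw [hi]
      have h2 := hr.2
      have h3 := hr'.2
      rw [e1] at h2
      have : (r i : ℤ) = r' i := by linarith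
      exact_mod_cast this
    · exact he' l hi

/-- sum of a nonnegative even function over one difference -/
theorem form1 {k : ℕ} (κ : ℕ) {C : ℝ} (hC : ∀ V : ℕ, ∑ n ∈ Icc 1 V, hh κ n ≤ C * V) 
    (D : ℕ) (hD : 1 ≤ D) (i : Fin k) (w : (Fin k → ℕ) → ℤ)
    (hw : ∀ f f' : Fin k → ℕ, (∀ l, l ≠ i → f l = f' l) → w f = w f')
    (hb : ∀ f ∈ Fintype.piFinset (fun _ : Fin k => Icc 1 D), 0 ≤ w f ∧ w f ≤ D) :
    ∑ f ∈ Fintype.piFinset (fun _ : Fin k => Icc 1 D), hh κ ((f i : ℤ) - w f).natAbs ≤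
      (1 + 2 * C) * (D : ℝ) ^ k := by
  classical
  have hk : 1 ≤ k := by
    have := i.2
    omega
  have hmap : ∀ f ∈ Fintype.piFinset (fun _ : Fin k => Icc 1 D),
      (f i : ℤ) - w f ∈ Icc (-(D : ℤ)) D := by
    intro f hf
    have h1 := hb f hf
    have h2 := Fintype.mem_piFinset.1 hf i
    rw [Finset.mem_Icc] at h2 ⊢
    constructor <;> omega
  rw [← Finset.sum_fiberwise_of_maps_to hmap]
  have h1 : ∀ s ∈ Icc (-(D : ℤ)) D,
      ∑ f ∈ (Fintype.piFinset (fun _ : Fin k => Icc 1 D)).filter (fun f => (f i : ℤ) - w f = s),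
        hh κ ((f i : ℤ) - w f).natAbs ≤ (D : ℝ) ^ (k - 1) * hh κ s.natAbs := by
    intro s _
    have h2 : ∑ f ∈ (Fintype.piFinset (fun _ : Fin k => Icc 1 D)).filter
        (fun f => (f i : ℤ) - w f = s), hh κ ((f i : ℤ) - w f).natAbs =
        ∑ f ∈ (Fintype.piFinset (fun _ : Fin k => Icc 1 D)).filter
          (fun f => (f i : ℤ) - w f = s), hh κ s.natAbs := by
      refine Finset.sum_congr rfl (fun f hf => ?_)
      rw [(Finset.mem_filter.1 hf).2]
    rw [h2, Finset.sum_const, nsmul_eq_mul]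
    refine mul_le_mul_of_nonneg_right ?_ (hh_nonneg _ _)
    exact_mod_cast fib_le D i w hw s
  refine (Finset.sum_le_sum h1).trans ?_
  rw [← Finset.mul_sum]
  have h3 : ∑ s ∈ Icc (-(D : ℤ)) D, hh κ s.natAbs ≤ (1 + 2 * C) * D := by
    have h4 : Icc (-(D : ℤ)) D = ({0} : Finset ℤ) ∪ ((Icc 1 D).image (fun n : ℕ => (n : ℤ)) ∪
        (Icc 1 D).image (fun n : ℕ => -(n : ℤ))) := by
      ext s
      simp only [Finset.mem_union, Finset.mem_image, Finset.mem_Icc, Finset.mem_singleton]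
      constructor
      · rintro ⟨h5, h6⟩
        rcases lt_trichotomy s 0 with h | h | h
        · exact Or.inr (Or.inr ⟨s.natAbs, ⟨by omega, by omega⟩, by omega⟩)
        · exact Or.inl h
        · exact Or.inr (Or.inl ⟨s.natAbs, ⟨by omega, by omega⟩, by omega⟩)
      · rintro (h | ⟨n, hn, rfl⟩ | ⟨n, hn, rfl⟩)
        · constructor <;> omega
        · constructor <;> omega
        · constructor <;> omega
    have h0 : hh κ (0 : ℤ).natAbs ≤ 1 := by
      unfold hh
      simp only [Int.natAbs_zero, Nat.cast_zero, Nat.totient_zero, div_zero]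
      exact pow_le_one₀ le_rfl zero_le_one
    have hi1 : ∑ s ∈ (Icc 1 D).image (fun n : ℕ => (n : ℤ)), hh κ s.natAbs ≤ C * D := by
      rw [Finset.sum_image (by
        intro a _ b _ h
        have h' : (a : ℤ) = (b : ℤ) := h
        omega)]
      simpa using hC D
    have hi2 : ∑ s ∈ (Icc 1 D).image (fun n : ℕ => -(n : ℤ)), hh κ s.natAbs ≤ C * D := by
      rw [Finset.sum_image (by
        intro a _ b _ h
        have h' : -(a : ℤ) = -(b : ℤ) := h
        omega)]
      simpa using hC D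
    have hpos : ∀ s : ℤ, 0 ≤ hh κ s.natAbs := fun s => hh_nonneg _ _
    have hun : ∀ A B : Finset ℤ, ∑ s ∈ A ∪ B, hh κ s.natAbs ≤
        ∑ s ∈ A, hh κ s.natAbs + ∑ s ∈ B, hh κ s.natAbs := by
      intro A B
      rw [← Finset.sum_union_inter]
      have := Finset.sum_nonneg (s := A ∩ B) (fun s _ => hpos s)
      linarith
    rw [h4]
    have hD' : (1 : ℝ) ≤ D := by exact_mod_cast hD
    have hs0 : ∑ s ∈ ({0} : Finset ℤ), hh κ s.natAbs ≤ 1 := by
      rw [Finset.sum_singleton]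
      exact h0
    have := hun ({0} : Finset ℤ) ((Icc 1 D).image (fun n : ℕ => (n : ℤ)) ∪
        (Icc 1 D).image (fun n : ℕ => -(n : ℤ)))
    have := hun ((Icc 1 D).image (fun n : ℕ => (n : ℤ))) ((Icc 1 D).image (fun n : ℕ => -(n : ℤ)))
    nlinarith
  calc (D : ℝ) ^ (k - 1) * ∑ s ∈ Icc (-(D : ℤ)) D, hh κ s.natAbs
      ≤ (D : ℝ) ^ (k - 1) * ((1 + 2 * C) * D) :=
        mul_le_mul_of_nonneg_left h3 (by positivity)
    _ = (1 + 2 * C) * (D : ℝ) ^ k := by
        obtain ⟨j, rfl⟩ : ∃ j, k = j + 1 := ⟨k - 1, by omega⟩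
        rw [Nat.add_sub_cancel, pow_succ]
        ring

/-- the product of the local factors -/
noncomputable def Gv {m : ℕ} (v : Fin m → ℤ) : ℝ :=
  ∏ i, ∏ j ∈ univ.erase i, hh m (v i - v j).natAbs

theorem Gv_nonneg {m : ℕ} (v : Fin m → ℤ) : 0 ≤ Gv v :=
  Finset.prod_nonneg (fun _ _ => Finset.prod_nonneg (fun _ _ => hh_nonneg _ _))

theorem prod_le_sum' {ι : Type*} (s : Finset ι) (f : ι → ℝ) (h0 : ∀ i ∈ s, 0 ≤ f i) :
    ∏ i ∈ s, f i ≤ 1 + ∑ i ∈ s, f i ^ s.card := by
  rcases s.eq_empty_or_nonempty with rfl | hs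
  · simp
  · obtain ⟨i, hi, hmax⟩ := Finset.exists_max_image s f hs
    calc ∏ j ∈ s, f j ≤ ∏ j ∈ s, f i := Finset.prod_le_prod h0 hmax
      _ = f i ^ s.card := by rw [Finset.prod_const]
      _ ≤ ∑ j ∈ s, f j ^ s.card :=
          Finset.single_le_sum (f := fun j => f j ^ s.card)
            (fun j hj => pow_nonneg (h0 j hj) _) hi
      _ ≤ 1 + ∑ j ∈ s, f j ^ s.card := by linarith

/-- the vector `(0, f)` -/
def vec {k : ℕ} (f : Fin k → ℕ) : Fin (k + 1) → ℤ := Fin.cons 0 (fun i => (f i : ℤ))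

theorem vec_zero {k : ℕ} (f : Fin k → ℕ) : vec f 0 = 0 := rfl

theorem vec_succ {k : ℕ} (f : Fin k → ℕ) (i : Fin k) : vec f i.succ = f i := rfl

theorem pair_le (k κ : ℕ) : ∃ C : ℝ, 0 < C ∧ ∀ D : ℕ, 1 ≤ D → ∀ i j : Fin (k + 1), i ≠ j →
    ∑ f ∈ Fintype.piFinset (fun _ : Fin k => Icc 1 D), hh κ (vec f i - vec f j).natAbs ≤
      C * (D : ℝ) ^ k := by
  obtain ⟨C, hC, hm⟩ := moment κ
  refine ⟨1 + 2 * C, by positivity, fun D hD i j hij => ?_⟩
  -- reduce to `i ≠ 0`
  have key : ∀ (i' : Fin k) (j : Fin (k + 1)), i'.succ ≠ j →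
      ∑ f ∈ Fintype.piFinset (fun _ : Fin k => Icc 1 D), hh κ (vec f i'.succ - vec f j).natAbs ≤
      (1 + 2 * C) * (D : ℝ) ^ k := by
    intro i' j hne
    have := form1 (k := k) κ hm D hD i' (fun f => vec f j) ?_ ?_
    · simpa only [vec_succ] using this
    · intro f f' hff
      rcases Fin.eq_zero_or_eq_succ j with rfl | ⟨j', rfl⟩
      · rfl
      · simp only [vec_succ]
        rw [hff j' (fun h => hne (by rw [h]))]
    · intro f hf
      rcases Fin.eq_zero_or_eq_succ j with rfl | ⟨j', rfl⟩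
      · simp only [vec_zero]
        constructor <;> omega
      · simp only [vec_succ]
        have := Fintype.mem_piFinset.1 hf j'
        rw [Finset.mem_Icc] at this
        constructor <;> omega
  rcases Fin.eq_zero_or_eq_succ i with rfl | ⟨i', rfl⟩
  · rcases Fin.eq_zero_or_eq_succ j with rfl | ⟨j', rfl⟩
    · exact absurd rfl hij
    · have := key j' 0 (Fin.succ_ne_zero j')
      refine le_trans (le_of_eq (Finset.sum_congr rfl (fun f _ => ?_))) this
      congr 1
      omega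
  · exact key i' j hij

/-- second moment over functions -/
theorem mom2 (k : ℕ) : ∃ C : ℝ, 0 < C ∧ ∀ D : ℕ, 1 ≤ D →
    ∑ f ∈ Fintype.piFinset (fun _ : Fin k => Icc 1 D), Gv (vec f) ^ 2 ≤ C * (D : ℝ) ^ k := by
  classical
  obtain ⟨I, hI⟩ : ∃ I : Finset (Sigma fun _ : Fin (k + 1) => Fin (k + 1)),
      I = univ.sigma (fun i => univ.erase i) := ⟨_, rfl⟩
  obtain ⟨C, hC, hp⟩ := pair_le k ((k + 1) * 2 * I.card)
  refine ⟨1 + I.card * C, by positivity, fun D hD => ?_⟩
  have h1 : ∀ f : Fin k → ℕ, Gv (vec f) ^ 2 ≤ 1 + ∑ q ∈ I,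
      hh ((k + 1) * 2 * I.card) (vec f q.1 - vec f q.2).natAbs := by
    intro f
    have h2 : Gv (vec f) ^ 2 = ∏ q ∈ I, hh ((k + 1) * 2) (vec f q.1 - vec f q.2).natAbs := by
      unfold Gv
      rw [hI, Finset.prod_sigma, ← Finset.prod_pow]
      refine Finset.prod_congr rfl (fun i _ => ?_)
      rw [← Finset.prod_pow]
      refine Finset.prod_congr rfl (fun j _ => ?_)
      rw [hh_pow]
    rw [h2]
    refine (prod_le_sum' I _ (fun q _ => hh_nonneg _ _)).trans (le_of_eq ?_)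
    congr 1
    refine Finset.sum_congr rfl (fun q _ => ?_)
    rw [hh_pow]
  refine (Finset.sum_le_sum (fun f _ => h1 f)).trans ?_
  rw [Finset.sum_add_distrib, Finset.sum_const, Finset.sum_comm]
  have h3 : ((Fintype.piFinset (fun _ : Fin k => Icc 1 D)).card : ℝ) = (D : ℝ) ^ k := by
    rw [Fintype.card_piFinset]
    simp
  rw [nsmul_eq_mul, mul_one, h3]
  have h5 : (1 + (I.card : ℝ) * C) * (D : ℝ) ^ k = (D : ℝ) ^ k + I.card * (C * (D : ℝ) ^ k) := by
    ring
  rw [h5]
  refine add_le_add le_rfl ?_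
  have h4 : ∀ q ∈ I, ∑ f ∈ Fintype.piFinset (fun _ : Fin k => Icc 1 D),
      hh ((k + 1) * 2 * I.card) (vec f q.1 - vec f q.2).natAbs ≤ C * (D : ℝ) ^ k := by
    intro q hq
    rw [hI, Finset.mem_sigma] at hq
    exact hp D hD q.1 q.2 (Finset.ne_of_mem_erase hq.2).symm
  refine (Finset.sum_le_sum h4).trans (le_of_eq ?_)
  rw [Finset.sum_const, nsmul_eq_mul]

/-- the patterns of `m` elements in `[0, D]` containing `0` -/
def pat (m D : ℕ) : Finset (Finset ℕ) := (powersetCard m (range (D + 1))).filter (fun H => 0 ∈ H)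

/-- the local factor of a pattern -/
noncomputable def GH (m : ℕ) (H : Finset ℕ) : ℝ :=
  if h : H.card = m then Gv (fun i => ((H.orderEmbOfFin h i : ℕ) : ℤ)) else 0

theorem GH_nonneg (m : ℕ) (H : Finset ℕ) : 0 ≤ GH m H := by
  unfold GH
  split_ifs
  · exact Gv_nonneg _
  · exact le_rfl

/-- the tail of the increasing enumeration -/
noncomputable def tl (k : ℕ) (H : Finset ℕ) : Fin k → ℕ :=
  if h : H.card = k + 1 then (fun i => H.orderEmbOfFin h i.succ) else fun _ => 0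

theorem emb_zero {k : ℕ} {H : Finset ℕ} (h : H.card = k + 1) (h0 : 0 ∈ H) :
    H.orderEmbOfFin h 0 = 0 := by
  have h1 : (0 : ℕ) ∈ Set.range (H.orderEmbOfFin h) := by
    rw [Finset.range_orderEmbOfFin]
    exact h0
  obtain ⟨i, hi⟩ := h1
  have h2 : H.orderEmbOfFin h 0 ≤ H.orderEmbOfFin h i := (H.orderEmbOfFin h).monotone (Fin.zero_le i)
  omega

theorem vec_tl {k : ℕ} {H : Finset ℕ} (h : H.card = k + 1) (h0 : 0 ∈ H) (i : Fin (k + 1)) :
    vec (tl k H) i = ((H.orderEmbOfFin h i : ℕ) : ℤ) := by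
  rcases Fin.eq_zero_or_eq_succ i with rfl | ⟨i', rfl⟩
  · rw [vec_zero, emb_zero h h0]
    rfl
  · rw [vec_succ, tl, dif_pos h]

theorem patSum (m : ℕ) (hm : 1 ≤ m) : ∃ C : ℝ, 0 < C ∧ ∀ D : ℕ, 1 ≤ D →
    ∑ H ∈ pat m D, GH m H ^ 2 ≤ C * (D : ℝ) ^ (m - 1) := by
  classical
  obtain ⟨k, rfl⟩ : ∃ k, m = k + 1 := ⟨m - 1, by omega⟩
  obtain ⟨C, hC, hm2⟩ := mom2 k
  refine ⟨C, hC, fun D hD => ?_⟩
  rw [Nat.add_sub_cancel]
  have hmem : ∀ H ∈ pat (k + 1) D, H.card = k + 1 ∧ 0 ∈ H ∧ ∀ a ∈ H, a ≤ D := by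
    intro H hH
    unfold pat at hH
    rw [Finset.mem_filter, Finset.mem_powersetCard] at hH
    exact ⟨hH.1.2, hH.2, fun a ha => by
      have := Finset.mem_range.1 (hH.1.1 ha)
      omega⟩
  have hinj : Set.InjOn (tl k) (pat (k + 1) D : Set (Finset ℕ)) := by
    intro H hH H' hH' he
    obtain ⟨h1, h2, _⟩ := hmem H hH
    obtain ⟨h1', h2', _⟩ := hmem H' hH'
    have h3 : ∀ i, H.orderEmbOfFin h1 i = H'.orderEmbOfFin h1' i := by
      intro i
      have h4 := vec_tl h1 h2 i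
      have h5 := vec_tl h1' h2' i
      rw [he] at h4
      exact_mod_cast h4.symm.trans h5
    have h6 : Set.range (H.orderEmbOfFin h1) = Set.range (H'.orderEmbOfFin h1') := by
      ext y
      constructor
      · rintro ⟨i, rfl⟩
        exact ⟨i, (h3 i).symm⟩
      · rintro ⟨i, rfl⟩
        exact ⟨i, h3 i⟩
    rw [Finset.range_orderEmbOfFin, Finset.range_orderEmbOfFin] at h6
    exact_mod_cast h6
  have h1 : ∑ H ∈ pat (k + 1) D, GH (k + 1) H ^ 2 =
      ∑ f ∈ (pat (k + 1) D).image (tl k), Gv (vec f) ^ 2 := by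
    rw [Finset.sum_image hinj]
    refine Finset.sum_congr rfl (fun H hH => ?_)
    obtain ⟨h1, h2, _⟩ := hmem H hH
    rw [GH, dif_pos h1]
    congr 2
    funext i
    rw [vec_tl h1 h2 i]
  rw [h1]
  refine le_trans (Finset.sum_le_sum_of_subset_of_nonneg ?_ (fun _ _ _ => sq_nonneg _)) (hm2 D hD)
  intro f hf
  obtain ⟨H, hH, rfl⟩ := Finset.mem_image.1 hf
  obtain ⟨h1, h2, h3⟩ := hmem H hH
  rw [Fintype.mem_piFinset]
  intro i
  rw [Finset.mem_Icc, tl, dif_pos h1]
  constructor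
  · have h4 : H.orderEmbOfFin h1 0 < H.orderEmbOfFin h1 i.succ :=
      (H.orderEmbOfFin h1).strictMono (Fin.succ_pos i)
    omega
  · exact h3 _ (Finset.orderEmbOfFin_mem _ _ _)

theorem pat_card_le (m D : ℕ) (hm : 1 ≤ m) : ((pat m D).card : ℝ) ≤ ((D : ℝ) + 1) ^ (m - 1) := by
  classical
  obtain ⟨k, rfl⟩ : ∃ k, m = k + 1 := ⟨m - 1, by omega⟩
  rw [Nat.add_sub_cancel]
  have h1 : (pat (k + 1) D).card ≤ (powersetCard k (range (D + 1))).card := by
    refine Finset.card_le_card_of_injOn (fun H => H.erase 0) ?_ ?_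
    · intro H hH
      rw [Finset.mem_coe, pat, Finset.mem_filter, Finset.mem_powersetCard] at hH
      rw [Finset.mem_coe, Finset.mem_powersetCard]
      exact ⟨(Finset.erase_subset _ _).trans hH.1.1, by
        rw [Finset.card_erase_of_mem hH.2, hH.1.2, Nat.add_sub_cancel]⟩
    · intro H hH H' hH' he
      rw [Finset.mem_coe, pat, Finset.mem_filter] at hH hH'
      have he' : H.erase 0 = H'.erase 0 := he
      rw [← Finset.insert_erase hH.2, ← Finset.insert_erase hH'.2, he']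
  rw [Finset.card_powersetCard, Finset.card_range] at h1
  have h2 : (D + 1).choose k ≤ (D + 1) ^ k := Nat.choose_le_pow _ _
  exact_mod_cast h1.trans h2

end Pool.Agent.X28.EO
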