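import Pool.Agent.Y500.U.SV
import Pool.Agent.X28.EO.Mom

/-! Upper bound sieve for patterns. -/

set_option autoImplicit false

open Finset

namespace Pool.Agent.X28.EO

/-- upper bound for the number of integers `n ≤ x` such that all `n + v i` are prime -/
theorem sieve (m : ℕ) : ∃ (C : ℝ) (N₀ : ℕ), 0 < C ∧ ∀ x : ℕ, N₀ ≤ x → ∀ v : Fin m → ℕ,
    Function.Injective v →
    (((Icc 1 x).filter (fun n => ∀ i, (n + v i).Prime)).card : ℝ) ≤
      C * (x / (Real.log x) ^ m) * Gv (fun i => ((v i : ℕ) : ℤ)) := by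
  classical
  obtain ⟨C, N₀, hC, h⟩ := Pool.Agent.Y500.U.sv m
  refine ⟨C, N₀, hC, fun x hx v hv => ?_⟩
  have h1 := h 1 le_rfl x hx (-1) (fun i => ((v i : ℕ) : ℤ)) (fun i j hij => hv (by
    have h0 : ((v i : ℕ) : ℤ) = ((v j : ℕ) : ℤ) := hij
    exact_mod_cast h0))
  have h2 : ((Icc 1 x).filter (fun n => ∀ i, (n + v i).Prime)).card ≤
      ((Ioc (-1 : ℤ) (-1 + (x : ℤ))).filter
        (fun n : ℤ => ∀ i, (1 + ((1 : ℕ) : ℤ) * (n + ((v i : ℕ) : ℤ))).toNat.Prime)).card := by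
    refine Finset.card_le_card_of_injOn (fun n : ℕ => (n : ℤ) - 1) ?_ ?_
    · intro n hn
      rw [Finset.mem_coe, Finset.mem_filter, Finset.mem_Icc] at hn
      rw [Finset.mem_coe, Finset.mem_filter, Finset.mem_Ioc]
      refine ⟨⟨by show (-1 : ℤ) < (n : ℤ) - 1; omega, by show (n : ℤ) - 1 ≤ -1 + (x : ℤ); omega⟩,
        fun i => ?_⟩
      have h3 : (1 + ((1 : ℕ) : ℤ) * ((n : ℤ) - 1 + ((v i : ℕ) : ℤ))).toNat = n + v i := by
        push_cast
        omega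
      show (1 + ((1 : ℕ) : ℤ) * ((n : ℤ) - 1 + ((v i : ℕ) : ℤ))).toNat.Prime
      rw [h3]
      exact hn.2 i
    · intro a _ b _ hab
      have hab' : (a : ℤ) - 1 = (b : ℤ) - 1 := hab
      omega
  have h3 : (((Icc 1 x).filter (fun n => ∀ i, (n + v i).Prime)).card : ℝ) ≤
      (((Ioc (-1 : ℤ) (-1 + (x : ℤ))).filter
        (fun n : ℤ => ∀ i, (1 + ((1 : ℕ) : ℤ) * (n + ((v i : ℕ) : ℤ))).toNat.Prime)).card : ℝ) := by
    exact_mod_cast h2
  refine h3.trans (h1.trans (le_of_eq ?_))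
  unfold Gv
  rw [Nat.totient_one, Nat.cast_one, div_one, one_div, inv_pow]
  ring

/-- the same for sets -/
theorem sieveH (m : ℕ) : ∃ (C : ℝ) (N₀ : ℕ), 0 < C ∧ ∀ x : ℕ, N₀ ≤ x → ∀ H : Finset ℕ,
    H.card = m →
    (((Icc 1 x).filter (fun n => ∀ h ∈ H, (n + h).Prime)).card : ℝ) ≤
      C * (x / (Real.log x) ^ m) * GH m H := by
  classical
  obtain ⟨C, N₀, hC, h⟩ := sieve m
  refine ⟨C, N₀, hC, fun x hx H hH => ?_⟩
  rw [GH, dif_pos hH]
  refine le_trans ?_ (h x hx (fun i => H.orderEmbOfFin hH i) (H.orderEmbOfFin hH).injective)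
  have h1 : ((Icc 1 x).filter (fun n => ∀ h ∈ H, (n + h).Prime)) ⊆
      ((Icc 1 x).filter (fun n => ∀ i, (n + H.orderEmbOfFin hH i).Prime)) := by
    intro n hn
    rw [Finset.mem_filter] at hn ⊢
    exact ⟨hn.1, fun i => hn.2 _ (Finset.orderEmbOfFin_mem _ _ _)⟩
  exact_mod_cast Finset.card_le_card h1

end Pool.Agent.X28.EO
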